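import Pool.Agent.Lib.H70L.Def

/-!
# H70L9, file Cl: the closure of the (2,3)-sparsity matroid, as a family of vertex sets
-/

set_option autoImplicit false

namespace H70L9

open Finset H98P H98M H70L

variable {V : Type*} [Fintype V] [DecidableEq V]

/-- `X` is tight for `I`. -/
def Tight (I : Finset (Sym2 V)) (X : Finset V) : Prop :=
  2 ≤ X.card ∧ (I ∩ X.sym2).card + 3 = 2 * X.card

open Classical in
/-- The maximal tight sets of `I`. -/
noncomputable def FF (I : Finset (Sym2 V)) : Finset (Finset V) :=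
  univ.filter fun X => Tight I X ∧ ∀ Y, Tight I Y → X ⊆ Y → Y = X

theorem mem_FF {I : Finset (Sym2 V)} {X : Finset V} :
    X ∈ FF I ↔ Tight I X ∧ ∀ Y, Tight I Y → X ⊆ Y → Y = X := by
  classical
  simp [FF]

/-- Every tight set is contained in a maximal one. -/
theorem exists_FF {I : Finset (Sym2 V)} {X : Finset V} (h : Tight I X) : ∃ Y ∈ FF I, X ⊆ Y := by
  classical
  obtain ⟨Y, hY, hmax⟩ := exists_max_image (univ.filter fun Y => Tight I Y ∧ X ⊆ Y) Finset.card
    ⟨X, by simp [h]⟩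
  simp only [mem_filter, mem_univ, true_and] at hY hmax
  refine ⟨Y, mem_FF.2 ⟨hY.1, fun Z hZ hYZ => ?_⟩, hY.2⟩
  exact (eq_of_subset_of_card_le hYZ (hmax Z ⟨hZ, hY.2.trans hYZ⟩)).symm

theorem sym2_inter (X Y : Finset V) : (X ∩ Y).sym2 = X.sym2 ∩ Y.sym2 := by
  ext e
  simp only [mem_inter, mem_sym2_iff]
  exact ⟨fun h => ⟨fun a ha => (h a ha).1, fun a ha => (h a ha).2⟩, fun h a ha => ⟨h.1 a ha, h.2 a ha⟩⟩

/-- A pair of different vertices in `X` and `Y`: they share two vertices. -/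
theorem two_le_inter {X Y : Finset V} {e : Sym2 V} (he : ¬ e.IsDiag) (h1 : e ∈ X.sym2) (h2 : e ∈ Y.sym2) :
    2 ≤ (X ∩ Y).card := by
  induction e using Sym2.ind with
  | _ a b =>
    have hab : a ≠ b := fun h => he (by simpa using h)
    rw [mem_sym2_iff] at h1 h2
    have ha : a ∈ X ∩ Y := mem_inter.2 ⟨h1 a (Sym2.mem_mk_left a b), h2 a (Sym2.mem_mk_left a b)⟩
    have hb : b ∈ X ∩ Y := mem_inter.2 ⟨h1 b (Sym2.mem_mk_right a b), h2 b (Sym2.mem_mk_right a b)⟩
    have : ({a, b} : Finset V) ⊆ X ∩ Y := by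
      intro x hx
      simp only [mem_insert, mem_singleton] at hx
      rcases hx with rfl | rfl <;> assumption
    calc 2 = ({a, b} : Finset V).card := (card_pair hab).symm
      _ ≤ _ := card_le_card this

/-- The union of two tight sets which share two vertices is tight. -/
theorem tight_union {I : Finset (Sym2 V)} (hI : Sparse I) {X Y : Finset V} (hX : Tight I X) (hY : Tight I Y)
    (h : 2 ≤ (X ∩ Y).card) : Tight I (X ∪ Y) := by
  have h2 : 2 ≤ (X ∪ Y).card := hX.1.trans (card_le_card subset_union_left)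
  have e1 := hI (X ∪ Y) h2
  have e2 := hI (X ∩ Y) h
  have e3 := card_union_add_card_inter X Y
  have e4 := card_union_add_card_inter (I ∩ X.sym2) (I ∩ Y.sym2)
  have e5 : (I ∩ X.sym2) ∩ (I ∩ Y.sym2) = I ∩ (X ∩ Y).sym2 := by
    rw [sym2_inter]
    ext e
    simp only [mem_inter]
    tauto
  have e6 : ((I ∩ X.sym2) ∪ (I ∩ Y.sym2)).card ≤ (I ∩ (X ∪ Y).sym2).card := by
    refine card_le_card (union_subset ?_ ?_)
    · exact inter_subset_inter_left (sym2_mono subset_union_left)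
    · exact inter_subset_inter_left (sym2_mono subset_union_right)
  rw [e5] at e4
  have := hX.2
  have := hY.2
  exact ⟨h2, by omega⟩

/-- Two maximal tight sets which share two vertices are equal. -/
theorem FF_eq {I : Finset (Sym2 V)} (hI : Sparse I) {X Y : Finset V} (hX : X ∈ FF I) (hY : Y ∈ FF I)
    (h : 2 ≤ (X ∩ Y).card) : X = Y := by
  rw [mem_FF] at hX hY
  have h1 := tight_union hI hX.1 hY.1 h
  rw [← hX.2 _ h1 subset_union_left, hY.2 _ h1 subset_union_right]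

/-- The edges of a sparse set lie in its maximal tight sets. -/
theorem edge_FF {I : Finset (Sym2 V)} (hI : Sparse I) {e : Sym2 V} (he : e ∈ I) (hd : ¬ e.IsDiag) :
    ∃ X ∈ FF I, e ∈ X.sym2 := by
  induction e using Sym2.ind with
  | _ a b =>
    have hab : a ≠ b := fun h => hd (by simpa using h)
    have hc : ({a, b} : Finset V).card = 2 := card_pair hab
    have hmem : s(a, b) ∈ ({a, b} : Finset V).sym2 := by
      rw [mem_sym2_iff]
      intro x hx
      rcases Sym2.mem_iff.1 hx with rfl | rfl <;> simp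
    have h1 : 1 ≤ (I ∩ ({a, b} : Finset V).sym2).card := card_pos.2 ⟨_, mem_inter.2 ⟨he, hmem⟩⟩
    have h2 := hI {a, b} hc.ge
    obtain ⟨X, hX, hs⟩ := exists_FF (I := I) (X := {a, b}) ⟨hc.ge, by omega⟩
    exact ⟨X, hX, sym2_mono hs hmem⟩

/-- D1, the sum formula. -/
theorem cost_FF {I : Finset (Sym2 V)} (hI : Sparse I) (hd : ∀ e ∈ I, ¬ e.IsDiag) : cost (FF I) = I.card := by
  have h1 : I = (FF I).biUnion fun X => I ∩ X.sym2 := by
    ext e
    simp only [mem_biUnion, mem_inter]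
    constructor
    · intro he
      obtain ⟨X, hX, hs⟩ := edge_FF hI he (hd e he)
      exact ⟨X, hX, he, hs⟩
    · rintro ⟨X, _, he, _⟩
      exact he
  have h2 : ((FF I).biUnion fun X => I ∩ X.sym2).card = ∑ X ∈ FF I, (I ∩ X.sym2).card := by
    refine card_biUnion fun X hX Y hY hne => ?_
    show Disjoint (I ∩ X.sym2) (I ∩ Y.sym2)
    rw [Finset.disjoint_left]
    intro e he1 he2
    rw [mem_inter] at he1 he2
    exact hne (FF_eq hI hX hY (two_le_inter (hd e he1.1) he1.2 he2.2))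
  rw [← h1] at h2
  rw [h2, cost]
  refine sum_congr rfl fun X hX => ?_
  have := (mem_FF.1 hX).1.2
  omega

/-- The key lemma. -/
theorem key {I J : Finset (Sym2 V)} (hI : Sparse I) (hdI : ∀ e ∈ I, ¬ e.IsDiag) (hJ : Sparse J)
    (hdJ : ∀ e ∈ J, ¬ e.IsDiag) (h : I ⊆ HG (FF J)) {X : Finset V} (hX : Tight I X) : ∃ Y ∈ FF J, X ⊆ Y := by
  classical
  set K := (FF J).filter fun Y => 2 ≤ (X ∩ Y).card with hK
  have hKm : ∀ Y, Y ∈ K ↔ Y ∈ FF J ∧ 2 ≤ (X ∩ Y).card := fun Y => by simp [hK]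
  have hcov : I ∩ X.sym2 ⊆ K.biUnion fun Y => I ∩ (X ∩ Y).sym2 := by
    intro e he
    rw [mem_inter] at he
    have h1 := h he.1
    unfold HG at h1
    obtain ⟨_, Y, hY, heY⟩ := mem_filter.1 h1
    refine mem_biUnion.2 ⟨Y, (hKm Y).2 ⟨hY, two_le_inter (hdI e he.1) he.2 heY⟩, ?_⟩
    rw [sym2_inter]
    exact mem_inter.2 ⟨he.1, mem_inter.2 ⟨he.2, heY⟩⟩
  have e1 : (I ∩ X.sym2).card ≤ ∑ Y ∈ K, (I ∩ (X ∩ Y).sym2).card := (card_le_card hcov).trans card_biUnion_le
  have e2 : ∑ Y ∈ K, (I ∩ (X ∩ Y).sym2).card + 3 * K.card ≤ 2 * ∑ Y ∈ K, (X ∩ Y).card := by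
    rw [mul_sum, mul_comm 3, ← smul_eq_mul, ← sum_const, ← sum_add_distrib]
    exact sum_le_sum fun Y hY => hI _ ((hKm Y).1 hY).2
  have e3 : ∑ Y ∈ K, (J ∩ Y.sym2).card + 3 * K.card = 2 * ∑ Y ∈ K, (X ∩ Y).card + 2 * ∑ Y ∈ K, (Y \ X).card := by
    rw [mul_sum, mul_sum, mul_comm 3, ← smul_eq_mul, ← sum_const, ← sum_add_distrib, ← sum_add_distrib]
    refine sum_congr rfl fun Y hY => ?_
    have h1 := (mem_FF.1 ((hKm Y).1 hY).1).1.2
    have h2 := card_inter_add_card_sdiff Y X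
    rw [inter_comm] at h2
    omega
  set Z := X ∪ K.biUnion id with hZ
  have hYZ : ∀ Y ∈ K, Y ⊆ Z := fun Y hY => (subset_biUnion_of_mem id hY).trans subset_union_right
  have e4 : ∑ Y ∈ K, (J ∩ Y.sym2).card ≤ (J ∩ Z.sym2).card := by
    rw [← card_biUnion]
    · refine card_le_card (biUnion_subset.2 fun Y hY => inter_subset_inter_left (sym2_mono (hYZ Y hY)))
    · intro Y hY Y' hY' hne
      show Disjoint (J ∩ Y.sym2) (J ∩ Y'.sym2)
      rw [Finset.disjoint_left]
      intro e he1 he2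
      rw [mem_inter] at he1 he2
      exact hne (FF_eq hJ ((hKm Y).1 hY).1 ((hKm Y').1 hY').1 (two_le_inter (hdJ e he1.1) he1.2 he2.2))
  have e5 : Z.card ≤ X.card + ∑ Y ∈ K, (Y \ X).card := by
    have h1 : Z ⊆ X ∪ K.biUnion fun Y => Y \ X := by
      intro x hx
      by_cases hxX : x ∈ X
      · exact mem_union_left _ hxX
      · rcases mem_union.1 hx with h1 | h1
        · exact absurd h1 hxX
        · obtain ⟨Y, hY, hxY⟩ := mem_biUnion.1 h1
          exact mem_union_right _ (mem_biUnion.2 ⟨Y, hY, mem_sdiff.2 ⟨hxY, hxX⟩⟩)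
    exact (card_le_card h1).trans ((card_union_le _ _).trans (Nat.add_le_add_left card_biUnion_le _))
  have hZ2 : 2 ≤ Z.card := hX.1.trans (card_le_card subset_union_left)
  have e6 := hJ Z hZ2
  have e7 := hX.2
  have hX2 := hX.1
  have hZt : Tight J Z := ⟨hZ2, by omega⟩
  have hne : (I ∩ X.sym2).Nonempty := card_pos.1 (by omega)
  obtain ⟨e, he⟩ := hne
  obtain ⟨Y, hY, -⟩ := mem_biUnion.1 (hcov he)
  have hYF := ((hKm Y).1 hY).1
  have := (mem_FF.1 hYF).2 Z hZt (hYZ Y hY)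
  exact ⟨Y, hYF, this ▸ subset_union_left⟩

theorem HG_sub {I J : Finset (Sym2 V)} (hI : Sparse I) (hdI : ∀ e ∈ I, ¬ e.IsDiag) (hJ : Sparse J)
    (hdJ : ∀ e ∈ J, ¬ e.IsDiag) (h : I ⊆ HG (FF J)) : HG (FF I) ⊆ HG (FF J) := by
  intro e he
  unfold HG at he ⊢
  obtain ⟨h1, X, hX, heX⟩ := mem_filter.1 he
  obtain ⟨Y, hY, hXY⟩ := key hI hdI hJ hdJ h (mem_FF.1 hX).1
  exact mem_filter.2 ⟨h1, Y, hY, sym2_mono hXY heX⟩

/-- A sparse subset of maximum size. -/
theorem exists_max (G : Finset (Sym2 V)) :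
    ∃ I, I ⊆ G ∧ Sparse I ∧ ∀ J, J ⊆ G → Sparse J → J.card ≤ I.card := by
  classical
  obtain ⟨I, hI, hmax⟩ := exists_max_image (G.powerset.filter fun I => Sparse I) Finset.card
    ⟨∅, by
      rw [mem_filter, mem_powerset]
      refine ⟨empty_subset _, fun X hX => ?_⟩
      rw [empty_inter, card_empty]
      omega⟩
  simp only [mem_filter, mem_powerset] at hI hmax
  exact ⟨I, hI.1, hI.2, fun J h1 h2 => hmax J ⟨h1, h2⟩⟩

/-- `G` lies in the graph of the maximal tight sets of a maximum sparse subset. -/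
theorem sub_HG {G I : Finset (Sym2 V)} (hG : G ⊆ LW univ) (hIG : I ⊆ G) (hI : Sparse I)
    (hmax : ∀ J, J ⊆ G → Sparse J → J.card ≤ I.card) : G ⊆ HG (FF I) := by
  classical
  intro e he
  have hd : ¬ e.IsDiag := (mem_filter.1 (hG he)).2
  unfold HG
  refine mem_filter.2 ⟨hG he, ?_⟩
  by_cases heI : e ∈ I
  · exact edge_FF hI heI hd
  · have h1 : ¬ Sparse (insert e I) := by
      intro hs
      have := hmax (insert e I) (insert_subset he hIG) hs
      rw [card_insert_of_notMem heI] at this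
      omega
    unfold Sparse at h1
    push Not at h1
    obtain ⟨X, hX2, hX⟩ := h1
    have h2 := hI X hX2
    have heX : e ∈ X.sym2 := by
      by_contra hcon
      have h3 : insert e I ∩ X.sym2 = I ∩ X.sym2 := by
        ext f
        simp only [mem_inter, mem_insert]
        constructor
        · rintro ⟨rfl | h, h'⟩
          · exact absurd h' hcon
          · exact ⟨h, h'⟩
        · rintro ⟨h, h'⟩
          exact ⟨Or.inr h, h'⟩
      rw [h3] at hX
      omega
    have h4 : insert e I ∩ X.sym2 ⊆ insert e (I ∩ X.sym2) := by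
      intro f
      simp only [mem_inter, mem_insert]
      rintro ⟨rfl | h, h'⟩
      · exact Or.inl rfl
      · exact Or.inr ⟨h, h'⟩
    have h5 := (card_le_card h4).trans (card_insert_le _ _)
    obtain ⟨Y, hY, hXY⟩ := exists_FF (I := I) (X := X) ⟨hX2, by omega⟩
    exact ⟨Y, hY, sym2_mono hXY heX⟩

/-- D. -/
theorem exists_closure : ∃ (cl : Finset (Sym2 V) → Finset (Finset V)) (r : Finset (Sym2 V) → ℕ),
    (∀ G, G ⊆ LW univ → (∀ X ∈ cl G, 2 ≤ X.card) ∧ G ⊆ HG (cl G) ∧ cost (cl G) = r G ∧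
      ∃ H ⊆ G, Sparse H ∧ H.card = r G) ∧
    (∀ G G', G ⊆ G' → G' ⊆ LW univ → HG (cl G) ⊆ HG (cl G') ∧ (HG (cl G) = HG (cl G') ∨ r G < r G')) := by
  classical
  choose I hIG hI hmax using fun G : Finset (Sym2 V) => exists_max G
  have hd : ∀ G, G ⊆ LW univ → ∀ e ∈ I G, ¬ e.IsDiag := fun G hG e he => (mem_filter.1 (hG (hIG G he))).2
  refine ⟨fun G => FF (I G), fun G => (I G).card, fun G hG => ⟨fun X hX => (mem_FF.1 hX).1.1,
    sub_HG hG (hIG G) (hI G) (hmax G), cost_FF (hI G) (hd G hG), I G, hIG G, hI G, rfl⟩, fun G G' hGG hG' => ?_⟩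
  have hG : G ⊆ LW univ := hGG.trans hG'
  have h1 : I G ⊆ HG (FF (I G')) := ((hIG G).trans hGG).trans (sub_HG hG' (hIG G') (hI G') (hmax G'))
  have h2 := HG_sub (hI G) (hd G hG) (hI G') (hd G' hG') h1
  refine ⟨h2, ?_⟩
  have h3 : (I G).card ≤ (I G').card := hmax G' (I G) ((hIG G).trans hGG) (hI G)
  rcases h3.lt_or_eq with h4 | h4
  · exact Or.inr h4
  · refine Or.inl (subset_antisymm h2 ?_)
    have h5 : G' ⊆ HG (FF (I G)) := sub_HG hG' ((hIG G).trans hGG) (hI G) fun J hJ1 hJ2 => by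
      rw [h4]
      exact hmax G' J hJ1 hJ2
    exact HG_sub (hI G') (hd G' hG') (hI G) (hd G hG) ((hIG G').trans h5)

end H70L9
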